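import Pool.Agent.P.MP_c76d8c_an.AL.Main
import Pool.Agent.P.MP_26a8c3_nt.QE.All

namespace Pool.Agent.Results.MP_c76d8c_an.AllEigenvalues

/-- Eigenfunction bound on the 3-torus with the conjectured exponent up to `O(p ^ (-1 - b))`, for
all eigenvalues. -/
theorem result :
    ∃ b B : ℝ, 0 < b ∧ ∀ p : ℝ, 2 ≤ p → ∃ C : ℝ, ∀ n : ℕ, 1 ≤ n →
      ∀ S : Finset (Fin 3 → ℤ), (∀ ξ ∈ S, ∑ j, (ξ j) ^ 2 = (n : ℤ)) →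
      ∀ a : (Fin 3 → ℤ) → ℂ,
        (∫ x in Set.univ.pi (fun _ : Fin 3 => Set.Icc (0 : ℝ) (2 * Real.pi)),
            ‖∑ ξ ∈ S, a ξ * Complex.exp (Complex.I * ∑ j, ((ξ j : ℂ) * ((x j : ℝ) : ℂ)))‖ ^ p)
            ^ (1 / p)
          ≤ C * (Real.sqrt (n : ℝ)) ^ (1 / 2 - 3 / p + B * p ^ (-1 - b)) *
            (∫ x in Set.univ.pi (fun _ : Fin 3 => Set.Icc (0 : ℝ) (2 * Real.pi)),
              ‖∑ ξ ∈ S, a ξ * Complex.exp (Complex.I * ∑ j, ((ξ j : ℂ) * ((x j : ℝ) : ℂ)))‖ ^ (2 : ℝ))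
              ^ (1 / 2 : ℝ) :=
  Pool.Agent.P.MP_c76d8c_an.AL.main (by norm_num) Pool.Agent.P.MP_26a8c3_nt.QE.zf

end Pool.Agent.Results.MP_c76d8c_an.AllEigenvalues
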