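import Pool.Agent.P.MP_c76d8c_an.SQ.Fin

namespace Pool.Agent.Results.MP_c76d8c_an.SquarePart

/-- Eigenfunction bound on the 3-torus for the eigenvalue `m * q ^ 2`: the square part `q` carries
the conjectured exponent (up to a power of its radical), the part `m` the exponent
`1/2 - 5/(2p)`. -/
theorem result :
    ∀ p : ℝ, 2 ≤ p → ∀ ε : ℝ, 0 < ε → ∃ (C : ℝ) (A : ℕ), ∀ m q : ℕ, 1 ≤ m → 1 ≤ q →
      ∀ S : Finset (Fin 3 → ℤ), (∀ ξ ∈ S, ∑ j, (ξ j) ^ 2 = ((m * q ^ 2 : ℕ) : ℤ)) →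
      ∀ a : (Fin 3 → ℤ) → ℂ,
        (∫ x in Set.univ.pi (fun _ : Fin 3 => Set.Icc (0 : ℝ) (2 * Real.pi)),
            ‖∑ ξ ∈ S, a ξ * Complex.exp (Complex.I * ∑ j, ((ξ j : ℂ) * ((x j : ℝ) : ℂ)))‖ ^ p)
            ^ (1 / p)
          ≤ C * (∏ r ∈ q.primeFactors, (r : ℝ)) ^ A *
            (Real.sqrt (m : ℝ)) ^ (max (1 / 2 - 5 / (2 * p)) 0) *
            (q : ℝ) ^ (max (1 / 2 - 3 / p) 0) *
            (Real.sqrt ((m * q ^ 2 : ℕ) : ℝ)) ^ ε *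
            (∫ x in Set.univ.pi (fun _ : Fin 3 => Set.Icc (0 : ℝ) (2 * Real.pi)),
              ‖∑ ξ ∈ S, a ξ * Complex.exp (Complex.I * ∑ j, ((ξ j : ℂ) * ((x j : ℝ) : ℂ)))‖ ^ (2 : ℝ))
              ^ (1 / 2 : ℝ) :=
  Pool.Agent.P.MP_c76d8c_an.SQ.main

end Pool.Agent.Results.MP_c76d8c_an.SquarePart
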